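import Pool.Agent.U131.SX.Chars

/-!
# The integral version up to a factor two from auxiliary primes

`F` is a number field (for example real quadratic), `H/F` a finite abelian extension, `ι` gives a
real place of `F` which splits completely in `H`, `w` another real place of `F` and `z` the complex
conjugation above `w`; `𝔣` is a nonzero ideal of `F` divisible by the primes ramified in `H`, `Z σ`
are the partial zeta functions for the places dividing `𝔣` and infinity.  `Hecke` contains known
facts: continuation, `Z σ 0 = 0`, and the double zero of `Z σ + Z (z σ)` at `0` (for `𝔣 ≠ 1`).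

If the integral version holds, with units whose conjugates over `F` are positive at `ι`, for the sets
`S ∪ {𝔮}` where the Frobenius automorphisms of the primes `𝔮` generate the Galois group, then it
holds for `S` up to a factor two, for all characters, with a unit `η` such that `H (√η)` is abelian
over `F`.
-/

set_option autoImplicit false

namespace Pool.Agent.Results.MP_c49e96_nt.AuxiliaryPrimes

open NumberField Pool.Agent.U131.SX
open Pool.Agent.K4H33.SK (Qbar GQ)
open Pool.Agent.K4H33.SK.Stmt (Sub Ideals prd)

theorem result (ι w : Qbar →+* ℂ) (F H : Sub) [NumberField F] (𝔣 : Ideals F)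
    (art : Ideals F → GQ) (z : GQ) (Z : GQ → ℂ → ℂ) (h : Setting ι w F H 𝔣 art z Z)
    (Q : Set (Ideals F)) (hQ : ∀ 𝔮 ∈ Q, Aux F 𝔣 𝔮 ∧ StarkPos ι F H (prd F 𝔣 𝔮) art)
    (hg : Generate F H art Q) : CharHalf ι F H 𝔣 art :=
  char_half h ((conclusion h).pos Q hQ hg).1

end Pool.Agent.Results.MP_c49e96_nt.AuxiliaryPrimes
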