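import Pool.Agent.U131.SR.Chr

/-!
# The integral rank one Stark conjecture for mixed signature extensions of real quadratic fields

`Qbar` is an algebraic closure of `ℚ`, `ι : Qbar → ℂ` an embedding, `GQ` the group of automorphisms
of `Qbar`; all fields are subfields of `Qbar` and Galois groups are described by `GQ`.

* `Fields`: `F` is a quadratic field, `H/F` is a finite abelian extension which is real at `ι` and
  complex at some place (so `F` is real quadratic, the place given by `ι` splits completely in `H`
  and the other real place does not split), `N` is the normal closure of `H` over `ℚ`, `M` is an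
  imaginary quadratic subfield of `N` and `N/M` is abelian; `f` is divisible by all primes ramified
  in `N`, and the maximal abelian subfield of `N` is contained in the `f`-th cyclotomic field.
* `StarkTheorem` is Stark's theorem for the abelian extension `N` of the imaginary quadratic field
  `M` and the places dividing `f` and infinity.

The conclusion `StarkChar0` is the integral version of the conjecture for `H/F`, the places dividing
`𝔣` and infinity, and the place given by `ι`: there is one unit `ε` of `H`, of absolute value one at
the places above the second real place, with `L(0, χ) = 0`, `L'(0, χ) = -(1/2) ∑ χ(σ) log |σ ε|` for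
all characters `χ` of `H/F`.  Here `𝔣` is any nonzero ideal divisible by all primes of `F` dividing
`f`, and `2` is the number of roots of unity of `H`.
-/

set_option autoImplicit false

namespace Pool.Agent.Results.MP_c49e96_nt.IntegralVersion

open Pool.Agent.U131.SR.Lay
open Pool.Agent.K4H33.SK (Qbar GQ)
open Pool.Agent.K4H33.SK.Stmt (Sub Ideals)
open NumberField

theorem result (ι : Qbar →+* ℂ) (F H M N : Sub) [NumberField F] [NumberField M] (f : ℕ)
    (hF : Fields ι F H M N f) (artF : Ideals F → GQ) (artM : Ideals M → GQ)
    (hart : Symbols F M N f artF artM) (hS : StarkTheorem ι M N f artM) (𝔣 : Ideals F)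
    (h𝔣 : Over F f 𝔣) : StarkChar0 ι F H 𝔣 artF :=
  stark_char0 ι F H M N f hF artF artM hart hS 𝔣 h𝔣

end Pool.Agent.Results.MP_c49e96_nt.IntegralVersion
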